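import Mathlib

/-! Classes of modules closed under isomorphisms, two-out-of-three in short exact sequences and
countable direct sums. -/

namespace HStrat

open CategoryTheory DirectSum

/-- A class of modules closed under isomorphism, two-out-of-three, and countable direct sums. -/
structure Good {R : Type} [CommRing R]
    (PM : ∀ (M : Type) [AddCommGroup M] [Module R M], Prop) : Prop where
  iso : ∀ (M N : Type) [AddCommGroup M] [Module R M] [AddCommGroup N] [Module R N],
    (M ≃ₗ[R] N) → PM M → PM N
  ses₁ : ∀ (A B C : Type) [AddCommGroup A] [Module R A] [AddCommGroup B] [Module R B]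
    [AddCommGroup C] [Module R C] (f : A →ₗ[R] B) (g : B →ₗ[R] C), Function.Injective f →
    Function.Exact f g → Function.Surjective g → PM B → PM C → PM A
  ses₂ : ∀ (A B C : Type) [AddCommGroup A] [Module R A] [AddCommGroup B] [Module R B]
    [AddCommGroup C] [Module R C] (f : A →ₗ[R] B) (g : B →ₗ[R] C), Function.Injective f →
    Function.Exact f g → Function.Surjective g → PM A → PM C → PM B
  ses₃ : ∀ (A B C : Type) [AddCommGroup A] [Module R A] [AddCommGroup B] [Module R B]
    [AddCommGroup C] [Module R C] (f : A →ₗ[R] B) (g : B →ₗ[R] C), Function.Injective f →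
    Function.Exact f g → Function.Surjective g → PM A → PM B → PM C
  dsum : ∀ (M : ℕ → Type) [∀ n, AddCommGroup (M n)] [∀ n, Module R (M n)],
    (∀ n, PM (M n)) → PM (⨁ n, M n)

variable {R : Type} [CommRing R]

section telescope

variable {E : Type} [AddCommGroup E] [Module R E] (N : ℕ → Submodule R E) (hN : Monotone N)

/-- the shift -/
noncomputable def shiftMap : (⨁ n, N n) →ₗ[R] (⨁ n, N n) :=
  DirectSum.toModule R ℕ _ (fun n => (DirectSum.lof R ℕ (fun n => N n) (n + 1)) ∘ₗ
    Submodule.inclusion (hN (Nat.le_succ n)))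

/-- the sum map -/
noncomputable def sumMap : (⨁ n, N n) →ₗ[R] E :=
  DirectSum.toModule R ℕ _ (fun n => (N n).subtype)

theorem shift_lof (n : ℕ) (x : N n) : shiftMap N hN (DirectSum.lof R ℕ (fun n => N n) n x) =
    DirectSum.lof R ℕ (fun n => N n) (n + 1) (Submodule.inclusion (hN (Nat.le_succ n)) x) := by
  unfold shiftMap
  rw [DirectSum.toModule_lof]
  rfl

theorem sum_lof (n : ℕ) (x : N n) : sumMap N (DirectSum.lof R ℕ (fun n => N n) n x) = x := by
  unfold sumMap
  rw [DirectSum.toModule_lof]
  rfl

theorem shift_zero (a : ⨁ n, N n) : shiftMap N hN a 0 = 0 := by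
  induction a using DirectSum.induction_on with
  | zero => simp
  | of i x =>
    have := shift_lof N hN i x
    rw [DirectSum.lof_eq_of] at this
    rw [this, DirectSum.lof_eq_of]
    exact DirectSum.of_eq_of_ne _ _ _ (by omega)
  | add x y hx hy => rw [map_add, DirectSum.add_apply, hx, hy, add_zero]

theorem shift_succ (a : ⨁ n, N n) (n : ℕ) : shiftMap N hN a (n + 1) =
    Submodule.inclusion (hN (Nat.le_succ n)) (a n) := by
  induction a using DirectSum.induction_on with
  | zero => simp
  | of i x =>
    have := shift_lof N hN i x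
    rw [DirectSum.lof_eq_of] at this
    rw [this, DirectSum.lof_eq_of]
    by_cases h : i = n
    · subst h
      rw [DirectSum.of_eq_same, DirectSum.of_eq_same]
    · rw [DirectSum.of_eq_of_ne _ _ _ (by omega), DirectSum.of_eq_of_ne _ _ _ (by omega), map_zero]
  | add x y hx hy => rw [map_add, DirectSum.add_apply, hx, hy, DirectSum.add_apply, map_add]

/-- identity minus shift -/
noncomputable def teleMap : (⨁ n, N n) →ₗ[R] (⨁ n, N n) := LinearMap.id - shiftMap N hN

theorem teleMap_apply (a : ⨁ n, N n) : teleMap N hN a = a - shiftMap N hN a := rfl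

theorem tele_inj : Function.Injective (teleMap N hN) := by
  rw [← LinearMap.ker_eq_bot, LinearMap.ker_eq_bot']
  intro a ha
  rw [teleMap_apply, sub_eq_zero] at ha
  have h : ∀ n, a n = 0 := by
    intro n
    induction n with
    | zero => rw [ha]; exact shift_zero N hN a
    | succ n ih =>
      rw [ha, shift_succ N hN a n, ih, map_zero]
  exact DFinsupp.ext h

theorem tele_cong (a : ⨁ n, N n) : ∃ n₀, ∀ n ≥ n₀, ∃ y : N n,
    a - DirectSum.lof R ℕ (fun n => N n) n y ∈ LinearMap.range (teleMap N hN) := by
  induction a using DirectSum.induction_on with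
  | zero => exact ⟨0, fun n _ => ⟨0, by simp⟩⟩
  | of i x =>
    refine ⟨i, fun n hn => ?_⟩
    obtain ⟨k, rfl⟩ := Nat.exists_eq_add_of_le hn
    clear hn
    induction k with
    | zero =>
      refine ⟨x, ?_⟩
      show DirectSum.lof R ℕ (fun n => N n) i x - DirectSum.lof R ℕ (fun n => N n) i x ∈ _
      rw [sub_self]
      exact zero_mem _
    | succ k ih =>
      obtain ⟨y, hy⟩ := ih
      refine ⟨Submodule.inclusion (hN (Nat.le_succ (i + k))) y, ?_⟩
      have h1 : DirectSum.lof R ℕ (fun n => N n) (i + k) y -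
          DirectSum.lof R ℕ (fun n => N n) (i + k + 1)
            (Submodule.inclusion (hN (Nat.le_succ (i + k))) y) ∈
          LinearMap.range (teleMap N hN) := by
        refine ⟨DirectSum.lof R ℕ (fun n => N n) (i + k) y, ?_⟩
        rw [teleMap_apply, shift_lof]
      have h2 := add_mem hy h1
      rwa [sub_add_sub_cancel] at h2
  | add a b ha hb =>
    obtain ⟨n₁, h₁⟩ := ha
    obtain ⟨n₂, h₂⟩ := hb
    refine ⟨max n₁ n₂, fun n hn => ?_⟩
    obtain ⟨y, hy⟩ := h₁ n ((le_max_left _ _).trans hn)
    obtain ⟨z, hz⟩ := h₂ n ((le_max_right _ _).trans hn)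
    refine ⟨y + z, ?_⟩
    have := add_mem hy hz
    rw [map_add]
    convert this using 1
    abel

theorem tele_exact : Function.Exact (teleMap N hN) (sumMap N) := by
  have h0 : ∀ a, sumMap N (teleMap N hN a) = 0 := by
    intro a
    induction a using DirectSum.induction_on with
    | zero => simp
    | of i x =>
      rw [← DirectSum.lof_eq_of R, teleMap_apply, shift_lof, map_sub,
        sum_lof, sum_lof, sub_eq_zero]
      rfl
    | add x y hx hy => rw [map_add, map_add, hx, hy, add_zero]
  intro a
  constructor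
  · intro ha
    obtain ⟨n₀, h⟩ := tele_cong N hN a
    obtain ⟨y, b, hb⟩ := h n₀ le_rfl
    have h1 : sumMap N (a - DirectSum.lof R ℕ (fun n => N n) n₀ y) = 0 := by rw [← hb]; exact h0 b
    rw [map_sub, ha, sum_lof, zero_sub, neg_eq_zero] at h1
    have h2 : y = 0 := Subtype.ext h1
    rw [h2, map_zero, sub_zero] at hb
    exact ⟨b, hb⟩
  · rintro ⟨b, rfl⟩
    exact h0 b

theorem tele_surj (htop : ∀ e : E, ∃ n, e ∈ N n) : Function.Surjective (sumMap N) := by
  intro e
  obtain ⟨n, hn⟩ := htop e
  exact ⟨DirectSum.lof R ℕ (fun n => N n) n ⟨e, hn⟩, sum_lof N n _⟩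

end telescope

theorem Good.union {PM : ∀ (M : Type) [AddCommGroup M] [Module R M], Prop} (h : Good PM)
    {E : Type} [AddCommGroup E] [Module R E] (N : ℕ → Submodule R E) (hN : Monotone N)
    (htop : ∀ e : E, ∃ n, e ∈ N n) (hP : ∀ n, PM (N n)) : PM E := by
  have hD : PM (⨁ n, N n) := h.dsum (fun n => N n) hP
  exact h.ses₃ _ _ _ (teleMap N hN) (sumMap N) (tele_inj N hN) (tele_exact N hN)
    (tele_surj N htop) hD hD

end HStrat
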