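import Pool.Agent.R708.HS.A

/-! `R/p` lies in every good class containing `κ(p)` and `R/q`, when `R/p` is like a discrete
valuation ring with residue ring `R/q`. -/

namespace HStrat

variable {R : Type} [CommRing R]

theorem Good.quot {PM : ∀ (M : Type) [AddCommGroup M] [Module R M], Prop} (h : Good PM)
    (p q : Ideal R) [p.IsPrime] (x : R) (hx : x ∉ p) (hq : ∀ r, r ∈ q ↔ ∃ s, r - x * s ∈ p)
    (hdiv : ∀ y, y ∉ p → ∃ n z, x ^ n - y * z ∈ p)
    (hκ : PM p.ResidueField) (hRq : PM (R ⧸ q)) : PM (R ⧸ p) := by
  classical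
  have hx0 : algebraMap R p.ResidueField x ≠ 0 := by
    rw [Ne, Ideal.algebraMap_residueField_eq_zero]
    exact hx
  -- the embedding of `R/p`
  let j : (R ⧸ p) →ₗ[R] p.ResidueField := p.liftQ (Algebra.linearMap R p.ResidueField) (fun r hr => by
    rw [LinearMap.mem_ker, Algebra.linearMap_apply, Ideal.algebraMap_residueField_eq_zero]
    exact hr)
  have hj : ∀ r : R, j (Ideal.Quotient.mk p r) = algebraMap R p.ResidueField r := fun r => rfl
  have hjinj : Function.Injective j := by
    rw [← LinearMap.ker_eq_bot, LinearMap.ker_eq_bot']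
    intro a ha
    obtain ⟨r, rfl⟩ := Ideal.Quotient.mk_surjective a
    rw [hj, Ideal.algebraMap_residueField_eq_zero] at ha
    exact Ideal.Quotient.eq_zero_iff_mem.mpr ha
  let W : Submodule R p.ResidueField := LinearMap.range j
  have hWmem : ∀ u : p.ResidueField, u ∈ W ↔ ∃ r : R, algebraMap R p.ResidueField r = u := by
    intro u
    constructor
    · rintro ⟨a, rfl⟩
      obtain ⟨r, rfl⟩ := Ideal.Quotient.mk_surjective a
      exact ⟨r, (hj r).symm⟩
    · rintro ⟨r, rfl⟩
      exact ⟨Ideal.Quotient.mk p r, hj r⟩
  let E := p.ResidueField ⧸ W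
  let mkE : p.ResidueField →ₗ[R] E := W.mkQ
  have hmkE : ∀ u : p.ResidueField, mkE u = 0 ↔ ∃ r : R, algebraMap R p.ResidueField r = u := by
    intro u
    rw [← hWmem]
    exact Submodule.Quotient.mk_eq_zero W
  have hsmul : ∀ (r : R) (u : p.ResidueField), r • u = algebraMap R p.ResidueField r * u := fun r u => Algebra.smul_def r u
  let N : ℕ → Submodule R E := fun n => LinearMap.ker (LinearMap.lsmul R E (x ^ n))
  have hNmem : ∀ n (e : E), e ∈ N n ↔ x ^ n • e = 0 := fun n e => Iff.rfl
  have hNmono : Monotone N := by
    intro m n hmn e he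
    rw [hNmem] at he ⊢
    obtain ⟨k, rfl⟩ := Nat.exists_eq_add_of_le hmn
    rw [add_comm, pow_add, mul_smul, he, smul_zero]
  have htop : ∀ e : E, ∃ n, e ∈ N n := by
    intro e
    obtain ⟨u, rfl⟩ := W.mkQ_surjective e
    obtain ⟨a, b, hb, hab⟩ := IsFractionRing.div_surjective (R ⧸ p) u
    obtain ⟨a, rfl⟩ := Ideal.Quotient.mk_surjective a
    obtain ⟨b, rfl⟩ := Ideal.Quotient.mk_surjective b
    have hb0 : b ∉ p := by
      intro hbp
      exact nonZeroDivisors.ne_zero hb (Ideal.Quotient.eq_zero_iff_mem.mpr hbp)
    have hb1 : algebraMap R p.ResidueField b ≠ 0 := by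
      rw [Ne, Ideal.algebraMap_residueField_eq_zero]
      exact hb0
    obtain ⟨n, z, hz⟩ := hdiv b hb0
    refine ⟨n, ?_⟩
    rw [hNmem, ← map_smul]
    refine (hmkE _).mpr ⟨z * a, ?_⟩
    have e1 : algebraMap R p.ResidueField (x ^ n) = algebraMap R p.ResidueField b * algebraMap R p.ResidueField z := by
      rw [← map_mul, ← sub_eq_zero, ← map_sub, Ideal.algebraMap_residueField_eq_zero]
      exact hz
    have e2 : u = algebraMap R p.ResidueField a / algebraMap R p.ResidueField b := by
      rw [← hab]
      rfl
    rw [hsmul, e1, e2, map_mul]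
    field_simp
  -- the first layer
  have hN1 : PM (N 1) := by
    let g : R →ₗ[R] N 1 :=
      { toFun := fun r => ⟨mkE (algebraMap R p.ResidueField r / algebraMap R p.ResidueField x), by
          rw [hNmem, ← map_smul]
          refine (hmkE _).mpr ⟨r, ?_⟩
          rw [hsmul, pow_one]
          field_simp⟩
        map_add' := by
          intro r s
          apply Subtype.ext
          show mkE _ = mkE _ + mkE _
          rw [← map_add, map_add (algebraMap R p.ResidueField), add_div]
        map_smul' := by
          intro c r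
          apply Subtype.ext
          show mkE _ = c • mkE _
          rw [← map_smul, hsmul, smul_eq_mul, map_mul, mul_div_assoc] }
    have hgs : Function.Surjective g := by
      rintro ⟨e, he⟩
      obtain ⟨u, rfl⟩ := W.mkQ_surjective e
      rw [hNmem, ← map_smul] at he
      obtain ⟨r, hr⟩ := (hmkE _).mp he
      refine ⟨r, Subtype.ext ?_⟩
      show mkE (algebraMap R p.ResidueField r / algebraMap R p.ResidueField x) = mkE u
      rw [hr, hsmul, pow_one, mul_div_cancel_left₀ _ hx0]
    have hgk : ∀ r, g r = 0 ↔ r ∈ q := by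
      intro r
      have e0 : g r = 0 ↔ mkE (algebraMap R p.ResidueField r / algebraMap R p.ResidueField x) = 0 := by
        rw [Subtype.ext_iff]
        rfl
      rw [e0, hmkE, hq]
      constructor
      · rintro ⟨s, hs⟩
        refine ⟨s, ?_⟩
        rw [← Ideal.algebraMap_residueField_eq_zero, map_sub, map_mul, hs]
        field_simp
        ring
      · rintro ⟨s, hs⟩
        refine ⟨s, ?_⟩
        rw [← Ideal.algebraMap_residueField_eq_zero, map_sub, map_mul, sub_eq_zero] at hs
        rw [hs]
        field_simp
    have hker : LinearMap.ker g = q := by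
      ext r
      rw [LinearMap.mem_ker]
      exact hgk r
    let e1 : (R ⧸ LinearMap.ker g) ≃ₗ[R] N 1 := g.quotKerEquivOfSurjective hgs
    let e2 : (R ⧸ q) ≃ₗ[R] (R ⧸ LinearMap.ker g) :=
      Submodule.quotEquivOfEq q (LinearMap.ker g) hker.symm
    exact h.iso _ _ (e2.trans e1) hRq
  have hN : ∀ n, PM (N n) := by
    intro n
    induction n with
    | zero =>
      -- `N 0` is zero
      have hz : ∀ e : N 0, e = 0 := by
        rintro ⟨e, he⟩
        rw [hNmem, pow_zero, one_smul] at he
        exact Subtype.ext he
      refine h.ses₁ (N 0) (N 1) (N 1) 0 LinearMap.id ?_ ?_ Function.surjective_id hN1 hN1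
      · intro a b _
        rw [hz a, hz b]
      · intro a
        constructor
        · intro ha
          exact ⟨0, by rw [LinearMap.zero_apply]; exact ha.symm⟩
        · rintro ⟨b, rfl⟩
          rfl
    | succ n ih =>
      let g : N (n + 1) →ₗ[R] N 1 :=
        { toFun := fun e => ⟨x ^ n • e.1, by
            have := e.2
            rw [hNmem] at this ⊢
            rw [← mul_smul, pow_one, ← pow_succ']
            exact this⟩
          map_add' := fun a b => Subtype.ext (smul_add _ _ _)
          map_smul' := fun c a => Subtype.ext (smul_comm _ _ _) }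
      refine h.ses₂ (N n) (N (n + 1)) (N 1) (Submodule.inclusion (hNmono (Nat.le_succ n))) g
        (Submodule.inclusion_injective _) ?_ ?_ ih hN1
      · intro a
        constructor
        · intro ha
          have h1 : x ^ n • a.1 = 0 := congrArg Subtype.val ha
          exact ⟨⟨a.1, h1⟩, rfl⟩
        · rintro ⟨b, rfl⟩
          exact Subtype.ext b.2
      · rintro ⟨e, he⟩
        obtain ⟨u, rfl⟩ := W.mkQ_surjective e
        have h1 : mkE (u) = x ^ n • mkE (u / algebraMap R p.ResidueField x ^ n) := by
          rw [← map_smul, hsmul, map_pow]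
          congr 1
          field_simp
        refine ⟨⟨mkE (u / algebraMap R p.ResidueField x ^ n), ?_⟩, Subtype.ext h1.symm⟩
        rw [hNmem, pow_succ', mul_smul, ← h1]
        have := he
        rw [hNmem, pow_one] at this
        exact this
  have hE : PM E := h.union N hNmono htop hN
  refine h.ses₁ (R ⧸ p) p.ResidueField E j mkE hjinj ?_ W.mkQ_surjective hκ hE
  intro u
  exact Submodule.Quotient.mk_eq_zero W

end HStrat
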