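import Pool.Agent.R708.HS.B

/-! The ring: an infinite wedge of lines at their closed point. -/

namespace HStrat

open PowerSeries DirectSum

/-- Sequences of power series over `ℚ` with common constant coefficient `c`, equal to the constant
`c` from some index on. -/
noncomputable def wedge : Subring (ℕ → PowerSeries ℚ) where
  carrier := {f | ∃ c : ℚ, (∀ i, constantCoeff (f i) = c) ∧ ∃ n, ∀ i ≥ n, f i = C c}
  mul_mem' := by
    rintro f g ⟨c, h1, n, h2⟩ ⟨d, h3, m, h4⟩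
    refine ⟨c * d, fun i => ?_, max n m, fun i hi => ?_⟩
    · rw [Pi.mul_apply, map_mul, h1, h3]
    · rw [Pi.mul_apply, h2 i ((le_max_left _ _).trans hi), h4 i ((le_max_right _ _).trans hi),
        map_mul]
  one_mem' := ⟨1, fun i => by simp, 0, fun i _ => by simp⟩
  add_mem' := by
    rintro f g ⟨c, h1, n, h2⟩ ⟨d, h3, m, h4⟩
    refine ⟨c + d, fun i => ?_, max n m, fun i hi => ?_⟩
    · rw [Pi.add_apply, map_add, h1, h3]
    · rw [Pi.add_apply, h2 i ((le_max_left _ _).trans hi), h4 i ((le_max_right _ _).trans hi),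
        map_add]
  zero_mem' := ⟨0, fun i => by simp, 0, fun i _ => by simp⟩
  neg_mem' := by
    rintro f ⟨c, h1, n, h2⟩
    refine ⟨-c, fun i => ?_, n, fun i hi => ?_⟩
    · rw [Pi.neg_apply, map_neg, h1]
    · rw [Pi.neg_apply, h2 i hi, map_neg]

/-- the ring -/
abbrev W : Type := wedge

/-- the `i`-th coordinate -/
noncomputable def pr (i : ℕ) : W →+* PowerSeries ℚ := (Pi.evalRingHom _ i).comp wedge.subtype

theorem pr_apply (i : ℕ) (f : W) : pr i f = f.1 i := rfl

/-- the common constant coefficient -/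
noncomputable def cc : W →+* ℚ := (constantCoeff (R := ℚ)).comp (pr 0)

theorem cc_eq (f : W) (i : ℕ) : constantCoeff (f.1 i) = cc f := by
  obtain ⟨c, h1, -⟩ := f.2
  rw [h1 i]
  exact (h1 0).symm

theorem ev_const (f : W) : ∃ n, ∀ i ≥ n, f.1 i = C (cc f) := by
  obtain ⟨c, h1, n, h2⟩ := f.2
  refine ⟨n, fun i hi => ?_⟩
  rw [h2 i hi]
  congr 1
  exact (h1 0).symm

theorem W_ext {f g : W} (h : ∀ i, f.1 i = g.1 i) : f = g := Subtype.ext (funext h)

/-- element with prescribed `i`-th coordinate -/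
noncomputable def el (i : ℕ) (v : PowerSeries ℚ) : W :=
  ⟨fun j => if j = i then v else C (constantCoeff v), constantCoeff v, fun j => by
    by_cases h : j = i <;> simp [h], i + 1, fun j hj => if_neg (by omega)⟩

theorem el_same (i : ℕ) (v : PowerSeries ℚ) : (el i v).1 i = v := if_pos rfl

theorem el_ne {i j : ℕ} (h : j ≠ i) (v : PowerSeries ℚ) : (el i v).1 j = C (constantCoeff v) :=
  if_neg h

/-- minimal primes -/
noncomputable def pp (i : ℕ) : Ideal W := RingHom.ker (pr i)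

instance (i : ℕ) : (pp i).IsPrime := RingHom.ker_isPrime _

theorem mem_pp {i : ℕ} {f : W} : f ∈ pp i ↔ f.1 i = 0 := RingHom.mem_ker

/-- the maximal ideal -/
noncomputable def qq : Ideal W := RingHom.ker cc

theorem mem_qq {f : W} : f ∈ qq ↔ cc f = 0 := RingHom.mem_ker

theorem cc_surj : Function.Surjective cc := by
  intro c
  refine ⟨el 0 (C c), ?_⟩
  show constantCoeff ((el 0 (C c)).1 0) = c
  rw [el_same]
  simp

instance : qq.IsMaximal := RingHom.ker_isMaximal_of_surjective cc cc_surj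

/-- the uniformizer at `i` -/
noncomputable def xx (i : ℕ) : W := el i X

theorem xx_same (i : ℕ) : (xx i).1 i = X := el_same i X

theorem xx_ne {i j : ℕ} (h : j ≠ i) : (xx i).1 j = 0 := by
  rw [xx, el_ne h]
  simp

theorem xx_not_mem (i : ℕ) : xx i ∉ pp i := by
  rw [mem_pp, xx_same]
  exact X_ne_zero

theorem exists_X_mul {v : PowerSeries ℚ} (h : constantCoeff v = 0) : ∃ w, v = X * w :=
  X_dvd_iff.mpr h

theorem qq_iff (i : ℕ) (r : W) : r ∈ qq ↔ ∃ s, r - xx i * s ∈ pp i := by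
  rw [mem_qq]
  constructor
  · intro h
    have h1 : constantCoeff (r.1 i) = 0 := by rw [cc_eq, h]
    obtain ⟨w, hw⟩ := exists_X_mul h1
    refine ⟨el i w, ?_⟩
    rw [mem_pp]
    show r.1 i - (xx i).1 i * (el i w).1 i = 0
    rw [xx_same, el_same, hw, sub_self]
  · rintro ⟨s, hs⟩
    rw [mem_pp] at hs
    have hs' : r.1 i - (xx i).1 i * s.1 i = 0 := hs
    rw [xx_same, sub_eq_zero] at hs'
    rw [← cc_eq r i, hs']
    simp

theorem div_pow (i : ℕ) (y : W) (hy : y ∉ pp i) : ∃ n z, xx i ^ n - y * z ∈ pp i := by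
  rw [mem_pp] at hy
  obtain ⟨n, u, hu⟩ := IsDiscreteValuationRing.eq_unit_mul_pow_irreducible hy
    (X_prime (R := ℚ)).irreducible
  refine ⟨n, el i (↑u⁻¹ : PowerSeries ℚ), ?_⟩
  rw [mem_pp]
  show (xx i).1 i ^ n - y.1 i * (el i (↑u⁻¹ : PowerSeries ℚ)).1 i = 0
  rw [xx_same, el_same, hu, sub_eq_zero]
  have : (u : PowerSeries ℚ) * ↑u⁻¹ = 1 := u.mul_inv
  calc (X : PowerSeries ℚ) ^ n = X ^ n * (↑u * ↑u⁻¹) := by rw [this, mul_one]
    _ = ↑u * X ^ n * ↑u⁻¹ := by ring

/-- `R/p_i → R`, multiplication by `x_i` -/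
noncomputable def mulx (i : ℕ) : (W ⧸ pp i) →ₗ[W] W :=
  (pp i).liftQ (LinearMap.mulRight W (xx i)) (fun r hr => by
    rw [LinearMap.mem_ker, LinearMap.mulRight_apply]
    apply W_ext
    intro j
    show r.1 j * (xx i).1 j = 0
    by_cases h : j = i
    · subst h
      rw [mem_pp.mp hr, zero_mul]
    · rw [xx_ne h, mul_zero])

theorem mulx_mk (i : ℕ) (r : W) : mulx i (Ideal.Quotient.mk _ r) = r * xx i := rfl

/-- the map `⨁ R/p_i → R` -/
noncomputable def bigMap : (⨁ i, W ⧸ pp i) →ₗ[W] W := DirectSum.toModule W ℕ W mulx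

theorem bigMap_lof (i : ℕ) (a : W ⧸ pp i) :
    bigMap (DirectSum.lof W ℕ (fun i => W ⧸ pp i) i a) = mulx i a := by
  unfold bigMap
  rw [DirectSum.toModule_lof]

theorem bigMap_coord (a : ⨁ i, W ⧸ pp i) (j : ℕ) : (bigMap a).1 j = (mulx j (a j)).1 j := by
  induction a using DirectSum.induction_on with
  | zero => simp
  | of i x =>
    rw [← DirectSum.lof_eq_of W, bigMap_lof]
    by_cases h : i = j
    · subst h
      rw [DirectSum.lof_eq_of, DirectSum.of_eq_same]
    · rw [DirectSum.lof_eq_of, DirectSum.of_eq_of_ne _ _ _ (Ne.symm h), map_zero]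
      obtain ⟨r, rfl⟩ := Ideal.Quotient.mk_surjective x
      rw [mulx_mk]
      show r.1 j * (xx i).1 j = 0
      rw [xx_ne (Ne.symm h), mul_zero]
  | add x y hx hy =>
    rw [map_add, DirectSum.add_apply, map_add]
    show (bigMap x).1 j + (bigMap y).1 j = (mulx j (x j)).1 j + (mulx j (y j)).1 j
    rw [hx, hy]

theorem bigMap_inj : Function.Injective bigMap := by
  intro a b hab
  have h : ∀ j, a j = b j := by
    intro j
    have h1 := bigMap_coord a j
    have h2 := bigMap_coord b j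
    rw [hab] at h1
    obtain ⟨r, hr⟩ := Ideal.Quotient.mk_surjective (a j)
    obtain ⟨s, hs⟩ := Ideal.Quotient.mk_surjective (b j)
    rw [← hr, mulx_mk] at h1
    rw [← hs, mulx_mk] at h2
    have h3 : r.1 j * (xx j).1 j = s.1 j * (xx j).1 j := h1.symm.trans h2
    rw [xx_same] at h3
    have h4 : r.1 j = s.1 j := mul_right_cancel₀ X_ne_zero h3
    rw [← hr, ← hs]
    refine Ideal.Quotient.eq.mpr (mem_pp.mpr ?_)
    show r.1 j - s.1 j = 0
    rw [h4, sub_self]
  exact DFinsupp.ext h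

theorem bigMap_exact : Function.Exact bigMap (qq.mkQ) := by
  intro f
  have e1 : qq.mkQ f = 0 ↔ f ∈ qq := Submodule.Quotient.mk_eq_zero qq
  rw [e1, mem_qq]
  constructor
  · intro hf
    obtain ⟨n, hn⟩ := ev_const f
    have h1 : ∀ i, ∃ w, f.1 i = X * w := fun i => exists_X_mul (by rw [cc_eq, hf])
    choose w hw using h1
    refine ⟨∑ i ∈ Finset.range n, DirectSum.lof W ℕ (fun i => W ⧸ pp i) i
      (Ideal.Quotient.mk _ (el i (w i))), ?_⟩
    rw [map_sum]
    apply W_ext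
    intro j
    have h2 : ∀ (s : Finset ℕ) (g : ℕ → W), (∑ i ∈ s, g i).1 j = ∑ i ∈ s, (g i).1 j := by
      intro s g
      show pr j (∑ i ∈ s, g i) = _
      rw [map_sum]
      rfl
    rw [h2]
    have h3 : ∀ i, (bigMap (DirectSum.lof W ℕ (fun i => W ⧸ pp i) i
        (Ideal.Quotient.mk _ (el i (w i))))).1 j = if j = i then f.1 j else 0 := by
      intro i
      rw [bigMap_lof, mulx_mk]
      show (el i (w i)).1 j * (xx i).1 j = _
      by_cases h : j = i
      · subst h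
        rw [el_same, xx_same, if_pos rfl, hw, mul_comm]
      · rw [xx_ne h, mul_zero, if_neg h]
    simp only [h3]
    rw [Finset.sum_ite_eq]
    by_cases hj : j ∈ Finset.range n
    · rw [if_pos hj]
    · rw [if_neg hj, hn j (by simpa using hj), hf, map_zero]
  · rintro ⟨a, rfl⟩
    rw [← cc_eq _ 0, bigMap_coord]
    obtain ⟨r, hr⟩ := Ideal.Quotient.mk_surjective (a 0)
    rw [← hr, mulx_mk]
    show constantCoeff (r.1 0 * (xx 0).1 0) = 0
    rw [xx_same]
    simp

/-- The ring itself lies in every good class containing all residue fields. -/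
theorem Good.ring {PM : ∀ (M : Type) [AddCommGroup M] [Module W M], Prop} (h : Good PM)
    (hκ : ∀ (p : Ideal W) [p.IsPrime], PM p.ResidueField) : PM W := by
  have hq : PM (W ⧸ qq) := by
    have hb := Ideal.bijective_algebraMap_quotient_residueField qq
    let e : (W ⧸ qq) ≃ₗ[W] qq.ResidueField :=
      LinearEquiv.ofBijective
        ((IsScalarTower.toAlgHom W (W ⧸ qq) qq.ResidueField).toLinearMap) hb
    exact h.iso _ _ e.symm (hκ qq)
  have hp : ∀ i, PM (W ⧸ pp i) := fun i =>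
    h.quot (pp i) qq (xx i) (xx_not_mem i) (qq_iff i) (div_pow i) (hκ (pp i)) hq
  exact h.ses₂ _ _ _ bigMap qq.mkQ bigMap_inj bigMap_exact (Submodule.mkQ_surjective _)
    (h.dsum _ hp) hq

/-- Thomason subsets: unions of closed subsets with quasi-compact complement. -/
def IsThomason {X : Type} [TopologicalSpace X] (Y : Set X) : Prop :=
  ∃ 𝒜 : Set (Set X), (∀ A ∈ 𝒜, IsClosed A ∧ IsCompact Aᶜ) ∧ Y = ⋃₀ 𝒜

/-- `x` is weakly visible: `{x} = Y₁ ∩ (X ∖ Y₂)` with `Y₁, Y₂` Thomason. -/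
def WeaklyVisible {X : Type} [TopologicalSpace X] (x : X) : Prop :=
  ∃ Y₁ Y₂ : Set X, IsThomason Y₁ ∧ IsThomason Y₂ ∧ {x} = Y₁ ∩ Y₂ᶜ

/-- Weakly noetherian spaces: every point is weakly visible. -/
def WeaklyNoetherian (X : Type) [TopologicalSpace X] : Prop := ∀ x : X, WeaklyVisible x

theorem not_weaklyNoetherian : ¬ WeaklyNoetherian (PrimeSpectrum W) := by
  intro h
  let Q : PrimeSpectrum W := ⟨qq, inferInstance⟩
  let P : ℕ → PrimeSpectrum W := fun i => ⟨pp i, inferInstance⟩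
  obtain ⟨Y₁, Y₂, ⟨𝒜, h𝒜, rfl⟩, ⟨ℬ, hℬ, rfl⟩, hQ⟩ := h Q
  have hQm : Q ∈ ⋃₀ 𝒜 ∩ (⋃₀ ℬ)ᶜ := by rw [← hQ]; rfl
  obtain ⟨⟨A, hA, hQA⟩, hQB⟩ := hQm
  have hpq : ∀ i, pp i ≤ qq := by
    intro i f hf
    rw [mem_qq, ← cc_eq f i, mem_pp.mp hf, map_zero]
  -- some `P i` lies in `A`
  obtain ⟨hAc, hAk⟩ := h𝒜 A hA
  obtain ⟨I, hI, hIA⟩ := PrimeSpectrum.isCompact_isOpen_iff_ideal.mp ⟨hAk, hAc.isOpen_compl⟩
  have hA' : A = PrimeSpectrum.zeroLocus (I : Set W) := by
    rw [← compl_compl A, ← hIA, compl_compl]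
  obtain ⟨S, hS⟩ := hI
  have hSq : ∀ f ∈ S, cc f = 0 := by
    intro f hf
    rw [hA', PrimeSpectrum.mem_zeroLocus] at hQA
    have : f ∈ (I : Set W) := by
      rw [← hS]
      exact Submodule.subset_span hf
    exact mem_qq.mp (hQA this)
  have hbound : ∃ n, ∀ f ∈ S, ∀ i ≥ n, f.1 i = 0 := by
    choose n hn using ev_const
    refine ⟨S.sup n, fun f hf i hi => ?_⟩
    rw [hn f i ((Finset.le_sup hf).trans hi), hSq f hf, map_zero]
  obtain ⟨n, hn⟩ := hbound
  have hPA : P n ∈ A := by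
    rw [hA', PrimeSpectrum.mem_zeroLocus]
    have : I ≤ pp n := by
      rw [← hS]
      refine Submodule.span_le.mpr (fun f hf => ?_)
      exact mem_pp.mpr (hn f hf n le_rfl)
    exact this
  have hPB : P n ∉ ⋃₀ ℬ := by
    rintro ⟨B, hB, hPB⟩
    apply hQB
    refine ⟨B, hB, ?_⟩
    have hBc := (hℬ B hB).1
    have hsp : P n ⤳ Q := (PrimeSpectrum.le_iff_specializes _ _).mp (hpq n)
    exact hsp.mem_closed hBc hPB
  have hPQ : P n ∈ ({Q} : Set (PrimeSpectrum W)) := by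
    rw [hQ]
    exact ⟨⟨A, hA, hPA⟩, hPB⟩
  have hPQ' : P n = Q := hPQ
  have hpp : pp n = qq := congrArg PrimeSpectrum.asIdeal hPQ'
  apply xx_not_mem n
  rw [hpp, qq_iff n]
  exact ⟨1, by rw [mul_one, sub_self]; exact zero_mem _⟩

end HStrat
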