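import Mathlib

/-! The localization functor from complexes of modules to the derived category preserves
coproducts. -/

namespace HStrat

open CategoryTheory Limits Pretriangulated

noncomputable section

attribute [local instance] HasDerivedCategory.standard

variable {R : Type} [CommRing R] {J : Type}

local instance : HasExactColimitsOfShape (Discrete J) (ModuleCat.{0} R) := inferInstance

/-- family of complexes as a complex of functors -/
def famCx (X : J → CochainComplex (ModuleCat.{0} R) ℤ) :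
    CochainComplex (Discrete J ⥤ ModuleCat.{0} R) ℤ where
  X i := Discrete.functor (fun j => (X j).X i)
  d i i' := Discrete.natTrans (fun j => (X j.as).d i i')
  shape i i' h := by
    ext j : 2
    exact (X j.as).shape i i' h
  d_comp_d' i i' i'' _ _ := by
    ext j : 2
    exact (X j.as).d_comp_d i i' i''

/-- family of morphisms -/
def famMap {X Y : J → CochainComplex (ModuleCat.{0} R) ℤ} (s : ∀ j, X j ⟶ Y j) :
    famCx X ⟶ famCx Y where
  f i := Discrete.natTrans (fun j => (s j.as).f i)
  comm' i i' _ := by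
    ext j : 2
    exact (s j.as).comm i i'

theorem famMap_quasiIso {X Y : J → CochainComplex (ModuleCat.{0} R) ℤ} (s : ∀ j, X j ⟶ Y j)
    (hs : ∀ j, QuasiIso (s j)) : QuasiIso (famMap s) := by
  rw [HomologicalComplex.quasiIso_iff_evaluation]
  rintro ⟨j⟩
  exact hs j

/-- the termwise coproduct -/
def cop (X : J → CochainComplex (ModuleCat.{0} R) ℤ) : CochainComplex (ModuleCat.{0} R) ℤ :=
  ((colim (J := Discrete J) (C := ModuleCat.{0} R)).mapHomologicalComplex _).obj (famCx X)

/-- the map on coproducts -/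
def copMap {X Y : J → CochainComplex (ModuleCat.{0} R) ℤ} (s : ∀ j, X j ⟶ Y j) :
    cop X ⟶ cop Y :=
  ((colim (J := Discrete J) (C := ModuleCat.{0} R)).mapHomologicalComplex _).map (famMap s)

instance : PreservesFiniteLimits (colim (J := Discrete J) (C := ModuleCat.{0} R)) :=
  HasExactColimitsOfShape.preservesFiniteLimits

instance : (colim (J := Discrete J) (C := ModuleCat.{0} R)).Additive := inferInstance

theorem copMap_quasiIso {X Y : J → CochainComplex (ModuleCat.{0} R) ℤ} (s : ∀ j, X j ⟶ Y j)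
    (hs : ∀ j, QuasiIso (s j)) : QuasiIso (copMap s) := by
  have := famMap_quasiIso s hs
  exact HomologicalComplex.quasiIso_map_of_preservesHomology (famMap s)
    (colim (J := Discrete J) (C := ModuleCat.{0} R))

/-- injections -/
def copι (X : J → CochainComplex (ModuleCat.{0} R) ℤ) (j : J) : X j ⟶ cop X where
  f i := colimit.ι (Discrete.functor (fun j => (X j).X i)) ⟨j⟩
  comm' _ _ _ := colimit.ι_desc _ _

theorem copι_f (X : J → CochainComplex (ModuleCat.{0} R) ℤ) (j : J) (i : ℤ) :
    (copι X j).f i = colimit.ι (Discrete.functor (fun j => (X j).X i)) ⟨j⟩ := rfl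

theorem copι_map {X Y : J → CochainComplex (ModuleCat.{0} R) ℤ} (s : ∀ j, X j ⟶ Y j) (j : J) :
    copι X j ≫ copMap s = s j ≫ copι Y j := by
  ext i : 1
  exact colimit.ι_desc _ _

theorem cop_hom_ext {X : J → CochainComplex (ModuleCat.{0} R) ℤ} {i : ℤ} {A : ModuleCat.{0} R}
    {g h : (cop X).X i ⟶ A} (hgh : ∀ j, (copι X j).f i ≫ g = (copι X j).f i ≫ h) : g = h := by
  refine colimit.hom_ext (F := Discrete.functor (fun j => (X j).X i)) ?_
  rintro ⟨j⟩
  exact hgh j

/-- degreewise description -/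
def copDescX {X : J → CochainComplex (ModuleCat.{0} R) ℤ} {i : ℤ} {A : ModuleCat.{0} R}
    (g : ∀ j, (X j).X i ⟶ A) : (cop X).X i ⟶ A :=
  colimit.desc (Discrete.functor (fun j => (X j).X i))
    ⟨A, Discrete.natTrans (fun j => g j.as)⟩

theorem copι_descX {X : J → CochainComplex (ModuleCat.{0} R) ℤ} {i : ℤ} {A : ModuleCat.{0} R}
    (g : ∀ j, (X j).X i ⟶ A) (j : J) : (copι X j).f i ≫ copDescX g = g j :=
  colimit.ι_desc _ _

theorem copι_descX_assoc {X : J → CochainComplex (ModuleCat.{0} R) ℤ} {i : ℤ}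
    {A B : ModuleCat.{0} R} (g : ∀ j, (X j).X i ⟶ A) (j : J) (f : A ⟶ B) :
    (copι X j).f i ≫ copDescX g ≫ f = g j ≫ f := by
  rw [← Category.assoc, copι_descX]

/-- universal morphism out of the coproduct -/
def copDesc {X : J → CochainComplex (ModuleCat.{0} R) ℤ} {Y : CochainComplex (ModuleCat.{0} R) ℤ}
    (g : ∀ j, X j ⟶ Y) : cop X ⟶ Y where
  f i := copDescX (fun j => (g j).f i)
  comm' i i' _ := by
    refine cop_hom_ext (fun j => ?_)
    rw [copι_descX_assoc, HomologicalComplex.Hom.comm, ← Category.assoc,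
      HomologicalComplex.Hom.comm (copι X j), Category.assoc, copι_descX]

theorem copι_desc {X : J → CochainComplex (ModuleCat.{0} R) ℤ}
    {Y : CochainComplex (ModuleCat.{0} R) ℤ} (g : ∀ j, X j ⟶ Y) (j : J) :
    copι X j ≫ copDesc g = g j := by
  ext i : 1
  exact copι_descX _ _

/-- assembling homotopies -/
def copHomotopy {X : J → CochainComplex (ModuleCat.{0} R) ℤ}
    {Y : CochainComplex (ModuleCat.{0} R) ℤ} (g : cop X ⟶ Y)
    (h : ∀ j, Homotopy (copι X j ≫ g) 0) : Homotopy g 0 where
  hom i i' := copDescX (fun j => (h j).hom i i')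
  zero i i' hi := by
    refine cop_hom_ext (fun j => ?_)
    rw [copι_descX, (h j).zero i i' hi, comp_zero]
  comm i := by
    refine cop_hom_ext (fun j => ?_)
    have h1 := (h j).comm i
    rw [HomologicalComplex.comp_f] at h1
    rw [h1]
    rw [Preadditive.comp_add, Preadditive.comp_add]
    congr 1
    · congr 1
      · show (X j).d i _ ≫ (h j).hom _ i = (copι X j).f i ≫ (cop X).d i _ ≫ copDescX _
        rw [← Category.assoc, HomologicalComplex.Hom.comm, Category.assoc, copι_descX]
      · show (h j).hom i _ ≫ Y.d _ i = (copι X j).f i ≫ copDescX _ ≫ Y.d _ i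
        rw [copι_descX_assoc]

/-- a morphism killed in the derived category is null-homotopic after a quasi-isomorphism -/
theorem exists_of_Q_map_eq_zero {X Y : CochainComplex (ModuleCat.{0} R) ℤ} (h : X ⟶ Y)
    (h0 : DerivedCategory.Q.map h = 0) :
    ∃ (X' : CochainComplex (ModuleCat.{0} R) ℤ) (s : X' ⟶ X), QuasiIso s ∧
      Nonempty (Homotopy (s ≫ h) 0) := by
  have h1 : (DerivedCategory.Qh (C := ModuleCat.{0} R)).map
      ((HomotopyCategory.quotient _ (ComplexShape.up ℤ)).map h) =
      (DerivedCategory.Qh (C := ModuleCat.{0} R)).map 0 := by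
    rw [Functor.map_zero]
    exact h0
  rw [MorphismProperty.map_eq_iff_precomp _ (HomotopyCategory.quasiIso _ (ComplexShape.up ℤ))] at h1
  obtain ⟨Z, s, hs, hfac⟩ := h1
  obtain ⟨X', rfl⟩ := HomotopyCategory.quotient_obj_surjective Z
  obtain ⟨s, rfl⟩ := (HomotopyCategory.quotient _ _).map_surjective s
  refine ⟨X', s, ?_, ?_⟩
  · exact (HomotopyCategory.quotient_map_mem_quasiIso_iff s).mp hs
  · refine ⟨HomotopyCategory.homotopyOfEq _ _ ?_⟩
    rw [Functor.map_comp, hfac, comp_zero, Functor.map_zero]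

theorem cop_uniq {X : J → CochainComplex (ModuleCat.{0} R) ℤ} {T : DerivedCategory (ModuleCat.{0} R)}
    (φ : DerivedCategory.Q.obj (cop X) ⟶ T)
    (hφ : ∀ j, DerivedCategory.Q.map (copι X j) ≫ φ = 0) : φ = 0 := by
  obtain ⟨Y, ⟨e⟩⟩ : ∃ Y : CochainComplex (ModuleCat.{0} R) ℤ,
      Nonempty (DerivedCategory.Q.obj Y ≅ T) :=
    ⟨_, ⟨DerivedCategory.Q.objObjPreimageIso T⟩⟩
  obtain ⟨Y', g, t, ht, hfac⟩ := DerivedCategory.left_fac (φ ≫ e.inv)
  have h1 : ∀ j, DerivedCategory.Q.map (copι X j ≫ g) = 0 := by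
    intro j
    have : DerivedCategory.Q.map g = φ ≫ e.inv ≫ DerivedCategory.Q.map t := by
      rw [← Category.assoc, hfac, Category.assoc, IsIso.inv_hom_id, Category.comp_id]
    rw [Functor.map_comp, this, ← Category.assoc, hφ, zero_comp]
  choose X' s hs H using fun j => exists_of_Q_map_eq_zero _ (h1 j)
  have h2 : Homotopy (copMap s ≫ g) 0 := copHomotopy _ (fun j => by
    have h3 : copι X' j ≫ copMap s ≫ g = s j ≫ copι X j ≫ g := by
      rw [← Category.assoc, copι_map, Category.assoc]
    rw [h3]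
    exact (H j).some)
  have h4 : DerivedCategory.Q.map (copMap s ≫ g) = 0 := by
    have := HomotopyCategory.eq_of_homotopy _ _ h2
    have h5 := congrArg (DerivedCategory.Qh (C := ModuleCat.{0} R)).map this
    rw [Functor.map_zero, Functor.map_zero] at h5
    exact h5
  have h6 : IsIso (DerivedCategory.Q.map (copMap s)) :=
    (DerivedCategory.isIso_Q_map_iff_quasiIso _ _).mpr (copMap_quasiIso s hs)
  have h7 : DerivedCategory.Q.map g = 0 := by
    rw [Functor.map_comp] at h4
    rw [← cancel_epi (DerivedCategory.Q.map (copMap s)), h4, comp_zero]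
  have h8 : φ ≫ e.inv = 0 := by rw [hfac, h7, zero_comp]
  rw [← cancel_mono e.inv, h8, zero_comp]

theorem cop_ext {X : J → CochainComplex (ModuleCat.{0} R) ℤ} {T : DerivedCategory (ModuleCat.{0} R)}
    (φ ψ : DerivedCategory.Q.obj (cop X) ⟶ T)
    (h : ∀ j, DerivedCategory.Q.map (copι X j) ≫ φ = DerivedCategory.Q.map (copι X j) ≫ ψ) :
    φ = ψ := by
  rw [← sub_eq_zero]
  apply cop_uniq
  intro j
  rw [Preadditive.comp_sub, h j, sub_self]

theorem cop_exists {X : J → CochainComplex (ModuleCat.{0} R) ℤ}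
    {T : DerivedCategory (ModuleCat.{0} R)} (f : ∀ j, DerivedCategory.Q.obj (X j) ⟶ T) :
    ∃ φ : DerivedCategory.Q.obj (cop X) ⟶ T, ∀ j, DerivedCategory.Q.map (copι X j) ≫ φ = f j := by
  obtain ⟨Y, ⟨e⟩⟩ : ∃ Y : CochainComplex (ModuleCat.{0} R) ℤ,
      Nonempty (DerivedCategory.Q.obj Y ≅ T) :=
    ⟨_, ⟨DerivedCategory.Q.objObjPreimageIso T⟩⟩
  choose X' s hs g hfac using fun j => DerivedCategory.right_fac (f j ≫ e.inv)
  have hs' : ∀ j, QuasiIso (s j) := fun j =>
    (DerivedCategory.isIso_Q_map_iff_quasiIso _ _).mp (hs j)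
  have h6 : IsIso (DerivedCategory.Q.map (copMap s)) :=
    (DerivedCategory.isIso_Q_map_iff_quasiIso _ _).mpr (copMap_quasiIso s hs')
  refine ⟨inv (DerivedCategory.Q.map (copMap s)) ≫ DerivedCategory.Q.map (copDesc g) ≫ e.hom,
    fun j => ?_⟩
  have h7 : DerivedCategory.Q.map (copι X j) ≫ inv (DerivedCategory.Q.map (copMap s)) =
      inv (DerivedCategory.Q.map (s j)) ≫ DerivedCategory.Q.map (copι X' j) := by
    rw [IsIso.comp_inv_eq, Category.assoc, ← Functor.map_comp, copι_map, Functor.map_comp,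
      IsIso.inv_hom_id_assoc]
  rw [← Category.assoc, h7, Category.assoc, ← Category.assoc (DerivedCategory.Q.map (copι X' j)),
    ← Functor.map_comp, copι_desc, ← Category.assoc, ← hfac, Category.assoc, e.inv_hom_id,
    Category.comp_id]

/-- the cofan of the coproduct in the derived category -/
def copCofan (X : J → CochainComplex (ModuleCat.{0} R) ℤ) :
    Cofan (fun j => DerivedCategory.Q.obj (X j)) :=
  Cofan.mk (DerivedCategory.Q.obj (cop X)) (fun j => DerivedCategory.Q.map (copι X j))

theorem copCofan_isColimit (X : J → CochainComplex (ModuleCat.{0} R) ℤ) :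
    Nonempty (IsColimit (copCofan X)) := by
  refine ⟨Cofan.IsColimit.mk _ (fun t => (cop_exists (fun j => t.inj j)).choose)
    (fun t j => (cop_exists (fun j => t.inj j)).choose_spec j) (fun t m hm => ?_)⟩
  refine cop_ext _ _ (fun j => ?_)
  rw [(cop_exists (fun j => t.inj j)).choose_spec j]
  exact hm j

/-- the termwise coproduct is the coproduct of complexes -/
def copIsColimit (X : J → CochainComplex (ModuleCat.{0} R) ℤ) :
    IsColimit (Cofan.mk (cop X) (copι X)) :=
  Cofan.IsColimit.mk _ (fun t => copDesc t.inj) (fun t j => copι_desc _ _) (fun t m hm => by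
    ext i : 1
    refine cop_hom_ext (fun j => ?_)
    have h1 := congrArg (fun (z : X j ⟶ t.pt) => z.f i) (hm j)
    have h2 := congrArg (fun (z : X j ⟶ t.pt) => z.f i) (copι_desc t.inj j)
    exact h1.trans h2.symm)

end

end HStrat
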