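import Pool.Agent.R708.HS.C
import Pool.Agent.R708.HS.E

/-! Localizing subcategories of the derived category. -/

namespace HStrat

open CategoryTheory Limits Pretriangulated DirectSum

noncomputable section

attribute [local instance] HasDerivedCategory.standard

/-- The unbounded derived category of `R`-modules. -/
abbrev DCat (R : Type) [CommRing R] : Type 1 := DerivedCategory (ModuleCat.{0} R)

/-- A module viewed as a complex concentrated in degree `0`. -/
def deg0 (R : Type) [CommRing R] (M : Type) [AddCommGroup M] [Module R M] : DCat R :=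
  (DerivedCategory.singleFunctor (ModuleCat.{0} R) 0).obj (ModuleCat.of R M)

/-- Localizing subcategories of the derived category, given by their classes of objects: classes
closed under isomorphisms, shifts, cones and all (small) coproducts that exist. -/
structure IsLocalizing {R : Type} [CommRing R] (P : DCat R → Prop) : Prop where
  iso : ∀ (X Y : DCat R), (X ≅ Y) → P X → P Y
  shift : ∀ (X : DCat R) (n : ℤ), P X → P (X⟦n⟧)
  cone : ∀ T ∈ distTriang (DCat R), P T.obj₁ → P T.obj₂ → P T.obj₃
  coprod : ∀ (J : Type) (X : J → DCat R) (c : Cofan X), Nonempty (IsColimit c) →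
    (∀ j, P (X j)) → P c.pt

variable {R : Type} [CommRing R] {P : DCat R → Prop}

theorem IsLocalizing.two (h : IsLocalizing P) (T : Triangle (DCat R)) (hT : T ∈ distTriang (DCat R))
    (h1 : P T.obj₁) (h3 : P T.obj₃) : P T.obj₂ := by
  have := h.cone _ (inv_rot_of_distTriang _ hT)
  exact this (h.shift _ _ h3) h1

theorem IsLocalizing.one (h : IsLocalizing P) (T : Triangle (DCat R)) (hT : T ∈ distTriang (DCat R))
    (h2 : P T.obj₂) (h3 : P T.obj₃) : P T.obj₁ := by
  have := h.cone _ (rot_of_distTriang _ hT) h2 h3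
  have h4 : P ((T.obj₁⟦(1 : ℤ)⟧)⟦(-1 : ℤ)⟧) := h.shift _ _ this
  exact h.iso _ _ ((shiftEquiv (DCat R) (1 : ℤ)).unitIso.symm.app T.obj₁) h4

/-- the short complex -/
def sc {A B C : Type} [AddCommGroup A] [Module R A] [AddCommGroup B] [Module R B]
    [AddCommGroup C] [Module R C] (f : A →ₗ[R] B) (g : B →ₗ[R] C) (hfg : Function.Exact f g) :
    ShortComplex (ModuleCat.{0} R) :=
  ShortComplex.mk (ModuleCat.ofHom f) (ModuleCat.ofHom g) (by
    ext x
    exact (hfg (f x)).mpr ⟨x, rfl⟩)

theorem sc_exact {A B C : Type} [AddCommGroup A] [Module R A] [AddCommGroup B] [Module R B]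
    [AddCommGroup C] [Module R C] (f : A →ₗ[R] B) (g : B →ₗ[R] C) (hf : Function.Injective f)
    (hfg : Function.Exact f g) (hg : Function.Surjective g) : (sc f g hfg).ShortExact where
  exact := (ShortComplex.ShortExact.moduleCat_exact_iff_function_exact _).mpr hfg
  mono_f := (ModuleCat.mono_iff_injective _).mpr hf
  epi_g := (ModuleCat.epi_iff_surjective _).mpr hg

theorem IsLocalizing.good (h : IsLocalizing P) :
    Good (R := R) (fun M _ _ => P (deg0 R M)) where
  iso := fun M N _ _ _ _ e hM =>
    h.iso _ _ ((DerivedCategory.singleFunctor (ModuleCat.{0} R) 0).mapIso e.toModuleIso) hM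
  ses₁ := fun A B C _ _ _ _ _ _ f g hf hfg hg hB hC =>
    h.one _ (sc_exact f g hf hfg hg).singleTriangle_distinguished hB hC
  ses₂ := fun A B C _ _ _ _ _ _ f g hf hfg hg hA hC =>
    h.two _ (sc_exact f g hf hfg hg).singleTriangle_distinguished hA hC
  ses₃ := fun A B C _ _ _ _ _ _ f g hf hfg hg hA hB =>
    h.cone _ (sc_exact f g hf hfg hg).singleTriangle_distinguished hA hB
  dsum := fun M _ _ hM => by
    let S := HomologicalComplex.single (ModuleCat.{0} R) (ComplexShape.up ℤ) 0
    let X : ℕ → CochainComplex (ModuleCat.{0} R) ℤ := fun n => S.obj (ModuleCat.of R (M n))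
    have e0 := DerivedCategory.singleFunctorIsoCompQ (ModuleCat.{0} R) 0
    have h1 : ∀ n, P (DerivedCategory.Q.obj (X n)) := fun n =>
      h.iso _ _ (e0.app (ModuleCat.of R (M n))) (hM n)
    have h2 : P (DerivedCategory.Q.obj (cop X)) :=
      h.coprod ℕ _ (copCofan X) (copCofan_isColimit X) h1
    have e4 : cop X ≅ ∐ X :=
      (copIsColimit X).coconePointUniqueUpToIso (coproductIsCoproduct X)
    let Z : ℕ → ModuleCat.{0} R := fun n => ModuleCat.of R (M n)
    have e1 : S.obj (∐ Z) ≅ ∐ X := PreservesCoproduct.iso S Z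
    have e2 : ∐ Z ≅ ModuleCat.of R (⨁ n, M n) := ModuleCat.coprodIsoDirectSum Z
    have e3 : DerivedCategory.Q.obj (cop X) ≅
        DerivedCategory.Q.obj (S.obj (ModuleCat.of R (⨁ n, M n))) :=
      DerivedCategory.Q.mapIso (e4 ≪≫ e1.symm ≪≫ S.mapIso e2)
    exact h.iso _ _ (e0.app (ModuleCat.of R (⨁ n, M n))).symm (h.iso _ _ e3 h2)

end

end HStrat
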